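import Mathlib
import Pool.Agent.W995.CC.Defs
import Pool.Agent.W995.CC.Fin

/-!
# Contractibility of finite complexes of dimension at most three is undecidable

There is no algorithm which decides whether a finite simplicial complex of dimension at most `3`,
given by the list of its simplices, is contractible.
-/

set_option autoImplicit false

namespace Pool.Agent.Results.MP_4c90a8_lc.Undecidable

open Pool.Agent.W995.CC

/-- No computable function decides, for all finite simplicial complexes of dimension at most `3`
(given by the list of all their simplices), whether the complex is contractible. -/
theorem result : ¬ ∃ f : List (List ℕ) → Bool, Computable f ∧
    ∀ L : List (List ℕ), IsComplex 3 L → (f L = true ↔ ContractibleSpace (Realization L)) :=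
  undecidable

end Pool.Agent.Results.MP_4c90a8_lc.Undecidable
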